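import Pool.Agent.H11Ins.Defs
import Pool.Agent.H11Ins.Main

/-!
MP_d56329_co, Q1: every combinatorial type of `d`-polytope (`d ≥ 2`) with at most `d + 3` facets is
inscribable.
-/

open H11Ins in
theorem Pool.Agent.Results.MP_d56329_co.Inscribable.result :
    ∀ d : ℕ, 2 ≤ d → ∀ P : Set (EuclideanSpace ℝ (Fin d)), IsPolytope d P →
      (facets P).encard ≤ d + 3 →
      ∃ Q : Set (EuclideanSpace ℝ (Fin d)), IsPolytope d Q ∧ CombEquiv P Q ∧ Inscribed Q := by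
  intro d hd P hP hfac
  obtain ⟨⟨S, hS, rfl⟩, x0, hx0⟩ := hP
  obtain ⟨T, hT, hPT, hmin⟩ := exists_min_cPol hS hx0
  have h1 := card_le_facets hT hmin
  rw [finrank_euclideanSpace_fin] at h1
  have h2 : T.encard ≤ d + 3 := by
    refine h1.trans ?_
    rw [← hPT]
    exact hfac
  have h3 : T.ncard ≤ d + 3 := by
    rw [← hT.cast_ncard_eq] at h2
    exact_mod_cast h2
  have hbdd : Bornology.IsBounded (cPol x0 T) := by
    rw [← hPT]
    exact (isBounded_convexHull).2 hS.isBounded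
  obtain ⟨Q, hQ1, hQ2, hQ3, hQ4⟩ := inscribe (by omega) hT h3 hbdd
  rw [← hPT] at hQ3
  exact ⟨Q, ⟨hQ1, hQ2⟩, hQ3, hQ4⟩
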